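import Mathlib
import Pool.Agent.H904R3.Gen
import Pool.Agent.Helper281.Sc.LN

/-!
# The group jump of a group jump

For infinite countable groups `G` and `H` the relation `(E^[G])^[H]` is never Borel reducible to a
countable Borel equivalence relation.
-/

set_option autoImplicit false

open Set Filter Topology MeasureTheory

namespace Pool.Agent.Y567.GJ

universe u v w

/-- The `G`-jump of the relation `E`. -/
def Jump (G : Type u) [Group G] {X : Type v} (E : X → X → Prop) : (G → X) → (G → X) → Prop :=
  fun α β => ∃ g : G, ∀ h : G, E (α (g⁻¹ * h)) (β h)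

/-- Borel reducibility. -/
def Red {X : Type u} {Y : Type v} [MeasurableSpace X] [MeasurableSpace Y] (E : X → X → Prop)
    (F : Y → Y → Prop) : Prop :=
  ∃ f : X → Y, Measurable f ∧ ∀ x x', E x x' ↔ F (f x) (f x')

/-- the action of `G^H` on `(2^G)^H` -/
def act {G H : Type} [Group G] (g : H → G) (z : H → G → Bool) : H → G → Bool :=
  fun h x => z h ((g h)⁻¹ * x)

lemma act_act {G H : Type} [Group G] (g g' : H → G) (z : H → G → Bool) :
    act g (act g' z) = act (g * g') z := by
  funext h x
  simp only [act, Pi.mul_apply, mul_inv_rev, mul_assoc]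

lemma act_one {G H : Type} [Group G] (z : H → G → Bool) : act 1 z = z := by
  funext h x
  simp [act]

/-- mix two points -/
def mix {H A : Type} (D : Finset H) [DecidableEq H] (z z' : H → A) : H → A :=
  fun h => if h ∈ D then z h else z' h

lemma mix_self {H A : Type} (D : Finset H) [DecidableEq H] (z : H → A) : mix D z z = z := by
  funext h
  simp [mix]

section top

variable {A : Type} [TopologicalSpace A] {H : Type} [DecidableEq H]

lemma continuous_mix (D : Finset H) :
    Continuous fun p : (H → A) × (H → A) => mix D p.1 p.2 := by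
  refine continuous_pi fun h => ?_
  by_cases hh : h ∈ D
  · simp only [mix, hh, if_true]
    exact (continuous_apply h).comp continuous_fst
  · simp only [mix, hh, if_false]
    exact (continuous_apply h).comp continuous_snd

/-- the homeomorphism exchanging the coordinates off `D` -/
def swapHomeo (D : Finset H) : (H → A) × (H → A) ≃ₜ (H → A) × (H → A) where
  toFun p := (mix D p.1 p.2, mix D p.2 p.1)
  invFun p := (mix D p.1 p.2, mix D p.2 p.1)
  left_inv p := by
    refine Prod.ext ?_ ?_ <;> funext h <;> by_cases hh : h ∈ D <;> simp [mix, hh]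
  right_inv p := by
    refine Prod.ext ?_ ?_ <;> funext h <;> by_cases hh : h ∈ D <;> simp [mix, hh]
  continuous_toFun := (continuous_mix D).prodMk ((continuous_mix D).comp continuous_swap)
  continuous_invFun := (continuous_mix D).prodMk ((continuous_mix D).comp continuous_swap)

lemma isOpenMap_mix (D : Finset H) :
    IsOpenMap fun p : (H → A) × (H → A) => mix D p.1 p.2 := by
  have : (fun p : (H → A) × (H → A) => mix D p.1 p.2) = Prod.fst ∘ (swapHomeo D : _ → _) := rfl
  rw [this]
  exact isOpenMap_fst.comp (swapHomeo D).isOpenMap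

end top

/-! ### The shift on `2^G` -/

section shift

variable {G : Type} [Group G] [Countable G] [Infinite G]

/-- A generic point has a dense orbit. -/
lemma dense_orbit : ∀ᶠ x in residual (G → Bool), ∀ V : Set (G → Bool), IsOpen V → V.Nonempty →
    ∃ g : G, (fun y => x (g⁻¹ * y)) ∈ V := by
  classical
  have key : ∀ i : Σ F : Finset G, (F → Bool), ∀ᶠ x in residual (G → Bool),
      ∃ g : G, ∀ a : i.1, x (g⁻¹ * a) = i.2 a := by
    rintro ⟨F, c⟩
    have hopen : IsOpen {x : G → Bool | ∃ g : G, ∀ a : F, x (g⁻¹ * a) = c a} := by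
      have : {x : G → Bool | ∃ g : G, ∀ a : F, x (g⁻¹ * a) = c a} =
          ⋃ g : G, ⋂ a : F, {x : G → Bool | x (g⁻¹ * a) = c a} := by
        ext x
        simp
      rw [this]
      refine isOpen_iUnion fun g => isOpen_iInter_of_finite fun a => ?_
      have h1 : Continuous fun x : G → Bool => x (g⁻¹ * (a : G)) := continuous_apply _
      exact (isOpen_discrete {c a}).preimage h1
    have hdense : Dense {x : G → Bool | ∃ g : G, ∀ a : F, x (g⁻¹ * a) = c a} := by
      rw [dense_iff_inter_open]
      rintro U hU ⟨x, hx⟩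
      obtain ⟨I, u, hu, hI⟩ := isOpen_pi_iff.1 hU x hx
      -- a group element moving `F` off `I`
      obtain ⟨g, hg⟩ : ∃ g : G, ∀ a ∈ F, g⁻¹ * a ∉ I := by
        obtain ⟨g, hg⟩ := Infinite.exists_notMem_finset
          ((F ×ˢ I).image fun p => p.1 * p.2⁻¹)
        refine ⟨g, fun a ha h => hg ?_⟩
        rw [Finset.mem_image]
        exact ⟨(a, g⁻¹ * a), Finset.mem_product.2 ⟨ha, h⟩, by simp⟩
      refine ⟨fun y => if h : g * y ∈ F then c ⟨g * y, h⟩ else x y, hI ?_, g, ?_⟩
      · intro y hy
        have h1 : g * y ∉ F := by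
          intro h
          have := hg _ h
          rw [inv_mul_cancel_left] at this
          exact this hy
        simp only [h1, dif_neg, not_false_eq_true]
        exact (hu y hy).2
      · rintro ⟨a, ha⟩
        have h1 : g * (g⁻¹ * a) = a := by group
        simp [ha]
    exact residual_of_dense_open hopen hdense
  have key2 := eventually_countable_forall.2 key
  filter_upwards [key2] with x hx
  rintro V hV ⟨y, hy⟩
  obtain ⟨I, u, hu, hI⟩ := isOpen_pi_iff.1 hV y hy
  obtain ⟨g, hg⟩ := hx ⟨I, fun a => y a⟩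
  refine ⟨g, hI fun a ha => ?_⟩
  have := hg ⟨a, ha⟩
  simp only at this
  rw [this]
  exact (hu a ha).2

omit [Group G] [Countable G] in
/-- Points are nowhere dense. -/
lemma ne_generic (c : G → Bool) : ∀ᶠ x in residual (G → Bool), x ≠ c := by
  classical
  refine residual_of_dense_open isOpen_compl_singleton ?_
  rw [dense_iff_inter_open]
  rintro U hU ⟨x, hx⟩
  obtain ⟨I, u, hu, hI⟩ := isOpen_pi_iff.1 hU x hx
  obtain ⟨a, ha⟩ := Infinite.exists_notMem_finset I
  refine ⟨Function.update x a (!(c a)), hI fun b hb => ?_, fun h => ?_⟩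
  · have : b ≠ a := fun h => ha (h ▸ hb)
    rw [Function.update_of_ne this]
    exact (hu b hb).2
  · have h1 := congrFun h a
    rw [Function.update_self] at h1
    cases h2 : c a <;> simp [h2] at h1

end shift

/-! ### The main argument -/

theorem not_red {G H : Type} [Group G] [Group H] [Countable G] [Countable H] [Infinite G]
    [Infinite H] {Y : Type u} [MeasurableSpace Y] [MeasurableSpace.CountablySeparated Y]
    {ι : Type v} [Countable ι] (F : Y → Y → Prop) (T : ι → Y → Y) (hT : ∀ i, Measurable (T i))
    (hF : ∀ y y', F y y' → ∃ i, T i y = y') (f : (H → G → Bool) → Y) (hf : Measurable f)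
    (h : ∀ z z', Jump H (Jump G (Eq : Bool → Bool → Prop)) z z' ↔ F (f z) (f z')) : False := by
  classical
  let _ : TopologicalSpace G := ⊥
  have : DiscreteTopology G := ⟨rfl⟩
  let _ : MeasurableSpace G := ⊤
  have : BorelSpace G := ⟨by rw [borel_eq_top_of_discrete]⟩
  -- continuity of the action
  have hact : Continuous fun p : (H → G → Bool) × (H → G) => act p.2 p.1 := by
    refine continuous_pi fun a => continuous_pi fun x => ?_
    have h1 : Continuous fun q : (H → G → Bool) × G => q.1 a (q.2⁻¹ * x) := by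
      rw [continuous_prod_of_discrete_right]
      intro b
      have h2 : Continuous fun z : H → G → Bool => z a := continuous_apply a
      exact (continuous_apply (b⁻¹ * x)).comp h2
    have h2 : Continuous fun p : (H → G → Bool) × (H → G) => (p.1, p.2 a) :=
      continuous_fst.prodMk ((continuous_apply a).comp continuous_snd)
    exact h1.comp h2
  have hact1 : ∀ g : H → G, Continuous fun z : H → G → Bool => act g z := fun g =>
    hact.comp (continuous_id.prodMk continuous_const)
  let actH : (H → G) → ((H → G → Bool) ≃ₜ (H → G → Bool)) := fun g =>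
    { toFun := act g
      invFun := act g⁻¹
      left_inv := fun z => by rw [act_act, inv_mul_cancel, act_one]
      right_inv := fun z => by rw [act_act, mul_inv_cancel, act_one]
      continuous_toFun := hact1 g
      continuous_invFun := hact1 g⁻¹ }
  -- an injection
  obtain ⟨c, hc, hci⟩ := MeasurableSpace.measurable_injection_nat_bool_of_countablySeparated Y
  -- translates are related
  have hrel : ∀ (g : H → G) (z : H → G → Bool),
      Jump H (Jump G (Eq : Bool → Bool → Prop)) (act g z) z := by
    intro g z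
    refine ⟨1, fun a => ⟨(g a)⁻¹, fun x => ?_⟩⟩
    simp [act]
  -- the sets `Q i`
  let Q : ι → Set ((H → G → Bool) × (H → G)) := fun i => {p | f p.1 = T i (f (act p.2 p.1))}
  have hQm : ∀ i, MeasurableSet (Q i) := by
    intro i
    have h1 : Q i = ⋂ n : ℕ, {p | c (f p.1) n = c (T i (f (act p.2 p.1))) n} := by
      ext p
      simp only [mem_iInter, mem_ofPred_eq]
      constructor
      · intro h2 n
        have h3 : f p.1 = T i (f (act p.2 p.1)) := h2
        rw [← h3]
      · intro h2
        exact hci (funext h2)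
    rw [h1]
    refine MeasurableSet.iInter fun n => ?_
    have m1 : Measurable fun p : (H → G → Bool) × (H → G) => c (f p.1) n :=
      (measurable_pi_apply n).comp (hc.comp (hf.comp measurable_fst))
    have m2 : Measurable fun p : (H → G → Bool) × (H → G) => c (T i (f (act p.2 p.1))) n :=
      (measurable_pi_apply n).comp (hc.comp ((hT i).comp (hf.comp hact.measurable)))
    exact measurableSet_eq_fun m1 m2
  have hQu : ⋃ i, Q i = univ := by
    refine eq_univ_of_forall fun p => ?_
    rw [mem_iUnion]
    obtain ⟨i, hi⟩ := hF _ _ ((h _ _).1 (hrel p.2 p.1))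
    exact ⟨i, hi.symm⟩
  obtain ⟨i, hi⟩ : ∃ i, ¬ IsMeagre (Q i) := by
    by_contra hcon
    push Not at hcon
    have h1 : IsMeagre (⋃ i, Q i) := isMeagre_iUnion hcon
    rw [hQu] at h1
    exact not_isMeagre_of_isOpen isOpen_univ univ_nonempty h1
  obtain ⟨O, hO, hQO⟩ := (hQm i).residualEq_isOpen
  have hOne : O.Nonempty := by
    by_contra hcon
    rw [not_nonempty_iff_eq_empty] at hcon
    apply hi
    rw [hcon] at hQO
    rw [IsMeagre]
    filter_upwards [hQO.mem_iff] with p hp hp'
    exact notMem_empty _ (hp.1 hp')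
  obtain ⟨⟨z₀, g₀⟩, hzg⟩ := hOne
  obtain ⟨W, U, hW, hU, hz₀, hg₀, hWU⟩ := isOpen_prod_iff.1 hO z₀ g₀ hzg
  have hgen : ∀ᶠ z in residual (H → G → Bool), ∀ᶠ g in residual (H → G),
      z ∈ W → g ∈ U → f z = T i (f (act g z)) := by
    refine Pool.Agent.H904R3.ku_fwd (p := fun q : (H → G → Bool) × (H → G) =>
      q.1 ∈ W → q.2 ∈ U → f q.1 = T i (f (act q.2 q.1))) ?_
    filter_upwards [hQO.mem_iff] with p hp h1 h2
    exact hp.2 (hWU ⟨h1, h2⟩)
  obtain ⟨D, u, hu, hD⟩ := isOpen_pi_iff.1 hU g₀ hg₀
  let A : (H → G → Bool) → Prop := fun z => ∀ᶠ g in residual (H → G),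
    g ∈ U → f z = T i (f (act g z))
  have hA : ∀ᶠ z in residual (H → G → Bool), z ∈ W → A z := by
    filter_upwards [hgen] with z hz hzW
    filter_upwards [hz] with g hg using hg hzW
  -- invariance
  have hinv : ∀ (γ : H → G) (z : H → G → Bool), (∀ a ∈ D, γ a = 1) → A z → A (act γ z) →
      f (act γ z) = f z := by
    intro γ z hγ h1 h2
    have hcm : Continuous fun g : H → G => g * γ :=
      continuous_pi fun a => (continuous_of_discreteTopology
        (f := fun x : G => x * γ a)).comp (continuous_apply a)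
    have hcm' : Continuous fun g : H → G => g * γ⁻¹ :=
      continuous_pi fun a => (continuous_of_discreteTopology
        (f := fun x : G => x * γ⁻¹ a)).comp (continuous_apply a)
    let rt : (H → G) ≃ₜ (H → G) :=
      { toFun := fun g => g * γ
        invFun := fun g => g * γ⁻¹
        left_inv := fun g => by simp
        right_inv := fun g => by simp
        continuous_toFun := hcm
        continuous_invFun := hcm' }
    have h3 : ∀ᶠ g in residual (H → G), g * γ ∈ U → f z = T i (f (act (g * γ) z)) :=
      (tendsto_residual_of_isOpenMap rt.continuous rt.isOpenMap).eventually h1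
    have h4 : ∀ᶠ g in residual (H → G), g ∈ U → f (act γ z) = T i (f (act g (act γ z))) := h2
    have h5 : IsOpen {g : H → G | ∀ a ∈ D, g a = g₀ a} := by
      have : {g : H → G | ∀ a ∈ D, g a = g₀ a} = ⋂ a ∈ D, {g : H → G | g a = g₀ a} := by
        ext g
        simp
      rw [this]
      refine isOpen_biInter_finset fun a _ => ?_
      have h6 : Continuous fun g : H → G => g a := continuous_apply a
      exact (isOpen_discrete {g₀ a}).preimage h6
    have hsub : ∀ g : H → G, (∀ a ∈ D, g a = g₀ a) → g ∈ U := by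
      intro g hg
      refine hD fun a ha => ?_
      rw [hg a ha]
      exact (hu a ha).2
    obtain ⟨g, hg1, hg2, hg3⟩ := (dense_of_mem_residual (h3.and h4)).inter_open_nonempty _ h5
      ⟨g₀, fun _ _ => rfl⟩
    have hg4 : g * γ ∈ U := hsub _ fun a ha => by
      rw [Pi.mul_apply, hγ a ha, mul_one]
      exact hg1 a ha
    rw [hg3 (hsub g hg1), act_act, ← hg2 hg4]
  -- the sets `S n`
  have hSm : ∀ n, MeasurableSet {z : H → G → Bool | c (f z) n = true} := by
    intro n
    have m1 : Measurable fun z : H → G → Bool => c (f z) n :=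
      (measurable_pi_apply n).comp (hc.comp hf)
    exact m1 (measurableSet_singleton true)
  choose O' hO' hSO using fun n => (hSm n).residualEq_isOpen
  -- finitely supported elements
  let gam : (Σ F : Finset H, (F → G)) → (H → G) := fun j a =>
    if ha : a ∈ j.1 then j.2 ⟨a, ha⟩ else 1
  have hN1 : ∀ᶠ z in residual (H → G → Bool), ∀ j : (Σ F : Finset H, (F → G)),
      (act (gam j) z ∈ W → A (act (gam j) z)) ∧
        ∀ n, (c (f (act (gam j) z)) n = true ↔ act (gam j) z ∈ O' n) := by
    rw [eventually_countable_forall]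
    intro j
    have h1 : Tendsto (act (gam j)) (residual (H → G → Bool)) (residual (H → G → Bool)) :=
      tendsto_residual_of_isOpenMap (actH (gam j)).continuous (actH (gam j)).isOpenMap
    refine (h1.eventually hA).and ?_
    rw [eventually_countable_forall]
    intro n
    exact h1.eventually (hSO n).mem_iff
  have hN2 : ∀ᶠ z in residual (H → G → Bool), ∀ a : H, ∀ V : Set (G → Bool), IsOpen V →
      V.Nonempty → ∃ g : G, (fun y => z a (g⁻¹ * y)) ∈ V := by
    rw [eventually_countable_forall]
    intro a
    have h1 : Tendsto (fun z : H → G → Bool => z a) (residual (H → G → Bool))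
        (residual (G → Bool)) :=
      tendsto_residual_of_isOpenMap (continuous_apply a) (isOpenMap_eval a)
    exact h1.eventually dense_orbit
  let N : (H → G → Bool) → Prop := fun z =>
    (∀ j : (Σ F : Finset H, (F → G)),
      (act (gam j) z ∈ W → A (act (gam j) z)) ∧
        ∀ n, (c (f (act (gam j) z)) n = true ↔ act (gam j) z ∈ O' n)) ∧
    ∀ a : H, ∀ V : Set (G → Bool), IsOpen V → V.Nonempty → ∃ g : G, (fun y => z a (g⁻¹ * y)) ∈ V
  have hN : ∀ᶠ z in residual (H → G → Bool), N z := hN1.and hN2
  have hgam0 : gam ⟨∅, fun a => 1⟩ = 1 := by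
    funext a
    simp [gam]
  -- points of `N ∩ W` which agree on `D` have the same value
  have hval : ∀ z₁ z₂ : H → G → Bool, N z₁ → N z₂ → z₁ ∈ W → z₂ ∈ W → (∀ a ∈ D, z₁ a = z₂ a) →
      ∀ n, c (f z₁) n = true → c (f z₂) n = true := by
    intro z₁ z₂ h1 h2 h3 h4 h5 n h6
    have e1 := (h1.1 ⟨∅, fun a => 1⟩).2 n
    rw [hgam0, act_one] at e1
    have e2 : z₁ ∈ O' n ∩ W := ⟨e1.1 h6, h3⟩
    obtain ⟨I, v, hv, hI⟩ := isOpen_pi_iff.1 ((hO' n).inter hW) z₁ e2
    have e3 : ∀ a : I, ∃ g : G, ((a : H) ∈ D → g = 1) ∧ (fun y => z₂ a (g⁻¹ * y)) ∈ v a := by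
      intro a
      by_cases ha : (a : H) ∈ D
      · refine ⟨1, fun _ => rfl, ?_⟩
        have : (fun y => z₂ a ((1 : G)⁻¹ * y)) = z₁ a := by
          rw [h5 a ha]
          simp
        rw [this]
        exact (hv a a.2).2
      · obtain ⟨g, hg⟩ := h2.2 a (v a) (hv a a.2).1 ⟨_, (hv a a.2).2⟩
        exact ⟨g, fun h => absurd h ha, hg⟩
    choose g hg1 hg2 using e3
    have e4 : ∀ a ∈ D, gam ⟨I, g⟩ a = 1 := by
      intro a ha
      by_cases haI : a ∈ I
      · simp only [gam, haI, dif_pos]
        exact hg1 ⟨a, haI⟩ ha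
      · simp only [gam, haI, dif_neg, not_false_eq_true]
    have e5 : act (gam ⟨I, g⟩) z₂ ∈ O' n ∩ W := by
      apply hI
      intro a ha
      have haI : a ∈ I := ha
      have : act (gam ⟨I, g⟩) z₂ a = fun y => z₂ a ((g ⟨a, haI⟩)⁻¹ * y) := by
        funext y
        simp only [act, gam, haI, dif_pos]
      rw [this]
      exact hg2 ⟨a, haI⟩
    have e6 := (h2.1 ⟨I, g⟩).2 n
    have e7 := (h2.1 ⟨I, g⟩).1 e5.2
    have e8 := (h2.1 ⟨∅, fun a => 1⟩).1
    rw [hgam0, act_one] at e8
    rw [← hinv (gam ⟨I, g⟩) z₂ e4 (e8 h4) e7]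
    exact e6.2 e5.1
  -- choice of the points
  obtain ⟨h₁, hh₁⟩ := Infinite.exists_notMem_finset D
  have hmix : ∀ᶠ z in residual (H → G → Bool), ∀ᶠ z' in residual (H → G → Bool),
      N (mix D z z') := by
    refine Pool.Agent.H904R3.ku_fwd (p := fun q : (H → G → Bool) × (H → G → Bool) =>
      N (mix D q.1 q.2)) ?_
    exact (tendsto_residual_of_isOpenMap (continuous_mix D) (isOpenMap_mix D)).eventually hN
  obtain ⟨z, hzW, hz1, hz2⟩ := (dense_of_mem_residual (hN.and hmix)).inter_open_nonempty _ hW
    ⟨z₀, hz₀⟩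
  have hnr : ∀ᶠ z' in residual (H → G → Bool),
      ¬ Jump H (Jump G (Eq : Bool → Bool → Prop)) z (mix D z z') := by
    have h1 : ∀ᶠ z' in residual (H → G → Bool), ∀ q : H × G,
        z' h₁ ≠ fun x => z (q.1⁻¹ * h₁) (q.2⁻¹ * x) := by
      rw [eventually_countable_forall]
      intro q
      have h2 : Tendsto (fun z : H → G → Bool => z h₁) (residual (H → G → Bool))
          (residual (G → Bool)) :=
        tendsto_residual_of_isOpenMap (continuous_apply h₁) (isOpenMap_eval h₁)
      exact h2.eventually (ne_generic _)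
    filter_upwards [h1] with z' hz'
    rintro ⟨a, ha⟩
    obtain ⟨b, hb⟩ := ha h₁
    refine hz' (a, b) ?_
    funext x
    rw [hb x]
    simp [mix, hh₁]
  have hop : IsOpen {z' : H → G → Bool | mix D z z' ∈ W} :=
    hW.preimage ((continuous_mix D).comp (continuous_const.prodMk continuous_id))
  obtain ⟨z', hz'W, hz'1, hz'2⟩ := (dense_of_mem_residual (hz2.and hnr)).inter_open_nonempty _ hop
    ⟨z, by
      show mix D z z ∈ W
      rw [mix_self]
      exact hzW⟩
  have hag : ∀ a ∈ D, z a = mix D z z' a := fun a ha => by simp [mix, ha]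
  have hff : f z = f (mix D z z') := by
    apply hci
    funext n
    have h1 := hval z (mix D z z') hz1 hz'1 hzW hz'W hag n
    have h2 := hval (mix D z z') z hz'1 hz1 hz'W hzW (fun a ha => (hag a ha).symm) n
    cases h3 : c (f z) n <;> cases h4 : c (f (mix D z z')) n
    · rfl
    · rw [h2 h4] at h3
      exact absurd h3 (by simp)
    · rw [h1 h3] at h4
      exact absurd h4 (by simp)
    · rfl
  apply hz'2
  rw [h, ← hff, ← h]
  have := hrel 1 z
  rwa [act_one] at this

/-- Composition with a map takes jumps of pullbacks to jumps. -/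
lemma jump_comp {G : Type u} [Group G] {X : Type v} {Z : Type w} (E : X → X → Prop) (θ : Z → X)
    (α β : G → Z) : Jump G E (θ ∘ α) (θ ∘ β) ↔ Jump G (fun a b => E (θ a) (θ b)) α β := Iff.rfl

end Pool.Agent.Y567.GJ
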